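import Mathlib
import Pool.Agent.V1130.ThreeColMain

/-!
Problem MP_2fb0b3_al, Q1: every finite solvable permutation group admits a 3-colouring of its
domain such that the colour-preserving subgroup is a 2-group.
-/

namespace Pool.Agent.Results.MP_2fb0b3_al.ThreeColouring

/-- The colour-preserving subgroup `G_γ` of a permutation group `G`. -/
def colourPreserving {Ω : Type} (G : Subgroup (Equiv.Perm Ω)) (γ : Ω → Fin 3) :
    Subgroup (Equiv.Perm Ω) where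
  carrier := {g | g ∈ G ∧ ∀ ω, γ (g ω) = γ ω}
  one_mem' := ⟨one_mem G, fun _ => rfl⟩
  mul_mem' := by
    rintro g h ⟨hg, hg'⟩ ⟨hh, hh'⟩
    exact ⟨mul_mem hg hh, fun ω => (hg' (h ω)).trans (hh' ω)⟩
  inv_mem' := by
    rintro g ⟨hg, hg'⟩
    refine ⟨inv_mem hg, fun ω => ?_⟩
    have h1 := hg' (g⁻¹ ω)
    have h2 : g (g⁻¹ ω) = ω := g.apply_symm_apply ω
    rw [h2] at h1
    exact h1.symm

theorem result (Ω : Type) [Finite Ω] (G : Subgroup (Equiv.Perm Ω)) (hG : Group.IsSolvable G) :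
    ∃ γ : Ω → Fin 3, IsPGroup 2 (colourPreserving G γ) := by
  obtain ⟨γ, hγ⟩ := V1130.ThreeCol.exists_good (Nat.card Ω) Ω G rfl
  refine ⟨γ, ?_⟩
  rintro ⟨g, hgG, hg⟩
  have h1 : ∀ ω : Ω, ∃ k : ℕ, (g ^ 2 ^ k) ω = ω := by
    intro ω
    obtain ⟨k, hk⟩ := hγ ⟨g, hgG⟩ hg ω
    exact ⟨k, hk⟩
  choose k hk using h1
  have _ := Fintype.ofFinite Ω
  refine ⟨∑ ω, k ω, ?_⟩
  apply Subtype.ext
  apply Equiv.ext
  intro ω
  change (g ^ 2 ^ (∑ ω, k ω)) ω = ω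
  have h2 : k ω ≤ ∑ ω, k ω := Finset.single_le_sum (fun _ _ => Nat.zero_le _) (Finset.mem_univ ω)
  obtain ⟨m, hm⟩ := Nat.exists_eq_add_of_le h2
  rw [hm, pow_add, pow_mul]
  have h3 : ∀ n : ℕ, ((g ^ 2 ^ k ω) ^ n) ω = ω := by
    intro n
    induction n with
    | zero => rfl
    | succ n ih => rw [pow_succ, Equiv.Perm.mul_apply, hk, ih]
  exact h3 _

end Pool.Agent.Results.MP_2fb0b3_al.ThreeColouring
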